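import Mathlib
import Pool.Agent.Lib.MP_293d80_gt.Build

set_option autoImplicit false

namespace Pool.Agent.Results.MP_293d80_gt.NotAdditive

open Set Cardinal

/-- `Λ` for a set of reals `X`: the family `𝒰` consists of open subsets of the subspace `X`, the
whole space `X` is not a member of `𝒰`, and every point of `X` lies in infinitely many members of
`𝒰`. -/
def Lam (X : Set ℝ) (𝒰 : Set (Set X)) : Prop :=
  (∀ U ∈ 𝒰, IsOpen U) ∧ (Set.univ : Set X) ∉ 𝒰 ∧ ∀ x : X, {U ∈ 𝒰 | x ∈ U}.Infinite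

/-- `Split(Λ,Λ)` for a set of reals `X`: every open large cover `𝒰` of `X` is the union of two
disjoint subfamilies, each of which has a subfamily that is an open large cover of `X`. -/
def SplitLL (X : Set ℝ) : Prop :=
  ∀ 𝒰 : Set (Set X), Lam X 𝒰 →
    ∃ 𝒱 𝒲 : Set (Set X), 𝒰 = 𝒱 ∪ 𝒲 ∧ 𝒱 ∩ 𝒲 = ∅ ∧
      (∃ 𝒱' ⊆ 𝒱, Lam X 𝒱') ∧ (∃ 𝒲' ⊆ 𝒲, Lam X 𝒲')

/-- `Split(Λ,Λ)` is additive: the union of two sets of reals with `Split(Λ,Λ)` again has
`Split(Λ,Λ)`. -/
def SplitAdditive : Prop :=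
  ∀ X Y : Set ℝ, SplitLL X → SplitLL Y → SplitLL (X ∪ Y)

open Pool.Agent.Lib.MP_293d80_gt

/-- a large family has a countable large subfamily -/
theorem countable_large {X : Type} [TopologicalSpace X] [SecondCountableTopology X]
    (𝒰 : Set (Set X)) (ho : ∀ U ∈ 𝒰, IsOpen U) (hl : ∀ x : X, {U ∈ 𝒰 | x ∈ U}.Infinite) :
    ∃ 𝒞 ⊆ 𝒰, 𝒞.Countable ∧ ∀ x : X, {U ∈ 𝒞 | x ∈ U}.Infinite := by
  classical
  have hpick : ∀ B : Set X, ∃ 𝒟 ⊆ {U ∈ 𝒰 | B ⊆ U}, 𝒟.Countable ∧
      ({U ∈ 𝒰 | B ⊆ U}.Finite → 𝒟 = {U ∈ 𝒰 | B ⊆ U}) ∧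
      ({U ∈ 𝒰 | B ⊆ U}.Infinite → 𝒟.Infinite) := by
    intro B
    by_cases hf : {U ∈ 𝒰 | B ⊆ U}.Finite
    · exact ⟨_, subset_rfl, hf.countable, fun _ => rfl, fun h => absurd hf h⟩
    · have hinf : {U ∈ 𝒰 | B ⊆ U}.Infinite := hf
      let f := hinf.natEmbedding
      refine ⟨range fun n => (f n).1, ?_, countable_range _, fun h => absurd h hf, fun _ => ?_⟩
      · rintro U ⟨n, rfl⟩
        exact (f n).2
      · exact infinite_range_of_injective
          (fun a b hab => f.injective (Subtype.ext hab))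
  choose 𝒟 hD1 hD2 hD3 hD4 using hpick
  have hbasis := TopologicalSpace.isBasis_countableBasis X
  refine ⟨⋃ B ∈ TopologicalSpace.countableBasis X, 𝒟 B, ?_, ?_, ?_⟩
  · intro U hU
    simp only [mem_iUnion] at hU
    obtain ⟨B, -, hU⟩ := hU
    exact (hD1 B hU).1
  · exact (TopologicalSpace.countable_countableBasis X).biUnion fun B _ => hD2 B
  · intro x
    by_cases hx : ∃ B ∈ TopologicalSpace.countableBasis X, x ∈ B ∧ {U ∈ 𝒰 | B ⊆ U}.Infinite
    · obtain ⟨B, hB, hxB, hinf⟩ := hx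
      refine (hD4 B hinf).mono ?_
      intro U hU
      refine ⟨?_, (hD1 B hU).2 hxB⟩
      simp only [mem_iUnion]
      exact ⟨B, hB, hU⟩
    · refine (hl x).mono ?_
      rintro U ⟨hU, hxU⟩
      refine ⟨?_, hxU⟩
      obtain ⟨B, hB, hxB, hBU⟩ := hbasis.exists_subset_of_mem_open hxU (ho U hU)
      have hfin : {U ∈ 𝒰 | B ⊆ U}.Finite := by
        by_contra hcon
        exact hx ⟨B, hB, hxB, hcon⟩
      simp only [mem_iUnion]
      refine ⟨B, hB, ?_⟩
      rw [hD3 B hfin]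
      exact ⟨hU, hBU⟩

theorem unb_of_infinite {T : Set ℕ} (h : T.Infinite) : Unb T := by
  intro k
  obtain ⟨n, hn, hk⟩ := h.exists_gt k
  exact ⟨n, hk.le, hn⟩

theorem infinite_of_unb {T : Set ℕ} (h : Unb T) : T.Infinite := by
  apply Set.infinite_of_forall_exists_gt
  intro k
  obtain ⟨n, hk, hn⟩ := h (k + 1)
  exact ⟨n, hn, hk⟩

/-- every sequence of open sets of the Cantor space has a code -/
theorem exists_code (O : ℕ → Set C) (hO : ∀ n, IsOpen (O n)) : ∃ k : K, ∀ n, W k n = O n := by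
  classical
  refine ⟨{t | ∀ x, Agree t.2.1 t.2.2 x → x ∈ O t.1}, fun n => ?_⟩
  ext x
  constructor
  · rintro ⟨u, m, hk, ha⟩
    exact hk x ha
  · intro hx
    obtain ⟨m, hm⟩ := open_cyl (hO n) hx
    refine ⟨(Finset.range m).filter fun i => x i = true, m, ?_, ?_⟩
    · intro y hy
      apply hm
      intro i hi
      have := hy i hi
      simp only [Finset.mem_filter, Finset.mem_range, hi, true_and] at this
      cases hx : x i <;> cases hy' : y i <;> simp_all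
    · intro i hi
      simp [hi]

theorem split_side (e : C → ℝ) (he : Continuous e) (Z : Set C)
    (hZ : ∀ k : K, (∀ x ∈ Z, Unb (ev k x)) → ∃ D : C, ∀ x ∈ Z, Spl D (ev k x)) :
    SplitLL (e '' Z) := by
  classical
  intro 𝒰 h𝒰
  obtain ⟨ho, hu, hl⟩ := h𝒰
  rcases Z.eq_empty_or_nonempty with hemp | ⟨x0, hx0⟩
  · subst hemp
    refine ⟨𝒰, ∅, by simp, by simp, ⟨𝒰, subset_rfl, ho, hu, hl⟩, ⟨∅, subset_rfl, by simp, by simp, ?_⟩⟩
    rintro ⟨x, hx⟩
    simp at hx
  obtain ⟨𝒞, hsub, hcnt, hlarge⟩ := countable_large 𝒰 ho hl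
  have hinf𝒞 : 𝒞.Infinite := (hlarge ⟨e x0, x0, hx0, rfl⟩).mono fun U hU => hU.1
  have : Countable 𝒞 := hcnt.to_subtype
  have : Infinite 𝒞 := hinf𝒞.to_subtype
  obtain ⟨eq⟩ : Nonempty (ℕ ≃ 𝒞) := by
    obtain ⟨d⟩ := nonempty_denumerable 𝒞
    exact ⟨(Denumerable.eqv 𝒞).symm⟩
  have hex : ∀ n, ∃ O : Set C, IsOpen O ∧
      ∀ x, ∀ hx : x ∈ Z, x ∈ O ↔ (⟨e x, x, hx, rfl⟩ : e '' Z) ∈ (eq n).1 := by
    intro n
    have hopen : IsOpen (eq n).1 := ho _ (hsub (eq n).2)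
    obtain ⟨V, hV, hVU⟩ := isOpen_induced_iff.1 hopen
    refine ⟨e ⁻¹' V, hV.preimage he, fun x hx => ?_⟩
    rw [← hVU]
    rfl
  choose O hO1 hO2 using hex
  obtain ⟨k, hk⟩ := exists_code O hO1
  have hev : ∀ x, ∀ hx : x ∈ Z, ev k x = {n | (⟨e x, x, hx, rfl⟩ : e '' Z) ∈ (eq n).1} := by
    intro x hx
    ext n
    simp only [ev, hk, Set.mem_ofPred_eq]
    exact hO2 n x hx
  obtain ⟨D, hD⟩ := hZ k (by
    intro x hx
    rw [hev x hx]
    apply unb_of_infinite
    have h1 := hlarge ⟨e x, x, hx, rfl⟩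
    by_contra hcon
    rw [Set.not_infinite] at hcon
    apply h1
    refine (hcon.image fun n => (eq n).1).subset ?_
    rintro U ⟨hU, hxU⟩
    obtain ⟨n, hn⟩ := eq.surjective ⟨U, hU⟩
    refine ⟨n, ?_, ?_⟩
    · simp only [Set.mem_ofPred_eq, hn]
      exact hxU
    · simp only [hn])
  have hside : ∀ b : Bool, ∀ y : e '' Z,
      {U ∈ {U | ∃ n, D n = b ∧ U = (eq n).1} | y ∈ U}.Infinite := by
    rintro b ⟨_, x, hx, rfl⟩
    have h1 : {n | n ∈ ev k x ∧ D n = b}.Infinite := by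
      apply infinite_of_unb
      intro m
      obtain ⟨n, h1, h2, h3⟩ := hD x hx b m
      exact ⟨n, h1, h2, h3⟩
    have h2 : ((fun n => (eq n).1) '' {n | n ∈ ev k x ∧ D n = b}).Infinite :=
      h1.image (fun a _ c _ hac => eq.injective (Subtype.ext hac))
    refine h2.mono ?_
    rintro U ⟨n, ⟨hn, hb⟩, rfl⟩
    refine ⟨⟨n, hb, rfl⟩, ?_⟩
    rw [hev x hx] at hn
    exact hn
  have hsubb : ∀ b : Bool, {U | ∃ n, D n = b ∧ U = (eq n).1} ⊆ 𝒰 := by
    rintro b U ⟨n, -, rfl⟩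
    exact hsub (eq n).2
  refine ⟨{U | ∃ n, D n = true ∧ U = (eq n).1}, 𝒰 \ {U | ∃ n, D n = true ∧ U = (eq n).1}, ?_, ?_,
    ⟨_, subset_rfl, ?_, ?_, hside true⟩, ⟨{U | ∃ n, D n = false ∧ U = (eq n).1}, ?_, ?_, ?_,
    hside false⟩⟩
  · rw [Set.union_sdiff_cancel (hsubb true)]
  · rw [Set.inter_sdiff_self]
  · exact fun U hU => ho U (hsubb true hU)
  · exact fun h => hu (hsubb true h)
  · rintro U ⟨n, hn, rfl⟩
    refine ⟨hsub (eq n).2, ?_⟩
    rintro ⟨m, hm, hmn⟩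
    have : n = m := eq.injective (Subtype.ext hmn)
    subst this
    rw [hn] at hm
    exact absurd hm (by simp)
  · exact fun U hU => ho U (hsubb false hU)
  · exact fun h => hu (hsubb false h)

theorem not_split (e : C → ℝ) (he : Continuous e) (hinj : Function.Injective e) (Z : Set C)
    (hinf : ∀ x ∈ Z, ∀ k, ∃ n, k ≤ n ∧ x n = true)
    (hreap : ∀ z h A, ∃ x ∈ Z, Agree z h x ∧ (Below h x A ∨ Below h x (neg A))) :
    ¬ SplitLL (e '' Z) := by
  classical
  intro hsplit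
  let O : ℕ → Set (e '' Z) := fun n => {y | (y : ℝ) ∉ e '' {x : C | x n = false}}
  have hmem : ∀ x, ∀ hx : x ∈ Z, ∀ n, (⟨e x, x, hx, rfl⟩ : e '' Z) ∈ O n ↔ x n = true := by
    intro x hx n
    simp only [O, Set.mem_ofPred_eq, Set.mem_image, not_exists, not_and]
    constructor
    · intro h
      by_contra hcon
      exact h x (by simpa using hcon) rfl
    · intro h x' hx' hxx
      have := hinj hxx
      subst this
      rw [h] at hx'
      exact absurd hx' (by simp)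
  have hOopen : ∀ n, IsOpen (O n) := by
    intro n
    have hcl : IsClosed {x : C | x n = false} := isClosed_eq (continuous_apply n) continuous_const
    have hcl2 : IsClosed (e '' {x : C | x n = false}) := (hcl.isCompact.image he).isClosed
    exact hcl2.isOpen_compl.preimage continuous_subtype_val
  have hOinj : Function.Injective O := by
    intro n m hnm
    by_contra hne
    obtain ⟨x, hx, ha, -⟩ := hreap {n} (max n m + 1) (fun _ => true)
    have h1 : x n = true := (ha n (by omega)).2 (by simp)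
    have h2 : ¬ x m = true := by
      intro h
      have h3 := (ha m (by omega)).1 h
      rw [Finset.mem_singleton] at h3
      exact hne h3.symm
    exact h2 ((hmem x hx m).1 (hnm ▸ (hmem x hx n).2 h1))
  have hLam : Lam (e '' Z) (range O) := by
    refine ⟨?_, ?_, ?_⟩
    · rintro U ⟨n, rfl⟩
      exact hOopen n
    · rintro ⟨n, hn⟩
      obtain ⟨x, hx, ha, -⟩ := hreap ∅ (n + 1) (fun _ => true)
      have h2 : ¬ x n = true := by
        intro h
        have h3 := (ha n (by omega)).1 h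
        simp at h3
      apply h2
      rw [← hmem x hx n, hn]
      trivial
    · rintro ⟨_, x, hx, rfl⟩
      have h1 : {n | x n = true}.Infinite := infinite_of_unb (hinf x hx)
      refine (h1.image hOinj.injOn).mono ?_
      rintro U ⟨n, hn, rfl⟩
      exact ⟨⟨n, rfl⟩, (hmem x hx n).2 hn⟩
  obtain ⟨𝒱, 𝒲, hunion, hdisj, ⟨𝒱', hV, -, -, hVl⟩, ⟨𝒲', hW, -, -, hWl⟩⟩ := hsplit _ hLam
  obtain ⟨x, hx, -, hA⟩ := hreap ∅ 0 (fun n => decide (O n ∈ 𝒱))
  rcases hA with hA | hA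
  · obtain ⟨U, hU, hxU⟩ := (hWl ⟨e x, x, hx, rfl⟩).nonempty
    have hUr : U ∈ range O := by
      rw [hunion]
      exact Or.inr (hW hU)
    obtain ⟨n, rfl⟩ := hUr
    have h1 := hA n (Nat.zero_le n) ((hmem x hx n).1 hxU)
    have h2 : O n ∈ 𝒱 := by simpa using h1
    have : O n ∈ 𝒱 ∩ 𝒲 := ⟨h2, hW hU⟩
    rw [hdisj] at this
    exact this
  · obtain ⟨U, hU, hxU⟩ := (hVl ⟨e x, x, hx, rfl⟩).nonempty
    have hUr : U ∈ range O := by
      rw [hunion]
      exact Or.inl (hV hU)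
    obtain ⟨n, rfl⟩ := hUr
    have h1 := hA n (Nat.zero_le n) ((hmem x hx n).1 hxU)
    have h2 : O n ∉ 𝒱 := by simpa [neg] using h1
    exact h2 (hV hU)

theorem countable_cov (F : Set (Set (ℕ → Bool))) (hF : F.Countable)
    (hnd : ∀ s ∈ F, IsNowhereDense s) : ⋃₀ F ≠ Set.univ := by
  intro hun
  have hm : IsMeagre (Set.univ : Set (ℕ → Bool)) := by
    rw [isMeagre_iff_countable_union_isNowhereDense]
    exact ⟨F, hnd, hF, by rw [hun]⟩
  exact not_isMeagre_of_isOpen isOpen_univ Set.univ_nonempty hm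

theorem not_additive (hcov : CovM) :
    ∃ X Y : Set ℝ, SplitLL X ∧ SplitLL Y ∧ ¬ SplitLL (X ∪ Y) := by
  obtain ⟨Z, hinf, hspl, hreap⟩ := families hcov
  obtain ⟨e, -, he, hinj⟩ :=
    (isClosed_univ (X := ℝ)).exists_nat_bool_injection_of_not_countable
      Cardinal.not_countable_real
  refine ⟨e '' Z true, e '' Z false, split_side e he _ (hspl true), split_side e he _ (hspl false),
    ?_⟩
  rw [← Set.image_union]
  apply not_split e he hinj
  · rintro x (hx | hx)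
    · exact hinf true x hx
    · exact hinf false x hx
  · intro z h A
    obtain ⟨b, x, hx, h1⟩ := hreap z h A
    cases b
    · exact ⟨x, Or.inr hx, h1⟩
    · exact ⟨x, Or.inl hx, h1⟩

/-- If `Split(Λ,Λ)` is additive for sets of reals, then `cov(M) < 𝔠`, that is, the Cantor space is
the union of fewer than `𝔠` nowhere dense sets; in particular the continuum hypothesis fails. -/
theorem result :
    SplitAdditive →
      (∃ F : Set (Set (ℕ → Bool)), #F < 𝔠 ∧ (∀ s ∈ F, IsNowhereDense s) ∧ ⋃₀ F = Set.univ) ∧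
      (ℵ₁ : Cardinal.{0}) < 𝔠 := by
  intro hadd
  have h1 : ¬ CovM := by
    intro hcov
    obtain ⟨X, Y, hX, hY, hXY⟩ := not_additive hcov
    exact hXY (hadd X Y hX hY)
  rw [CovM] at h1
  push Not at h1
  obtain ⟨F, hF, hnd, hun⟩ := h1
  refine ⟨⟨F, hF, hnd, hun⟩, ?_⟩
  refine lt_of_le_of_lt ?_ hF
  by_contra hcon
  rw [not_le, lt_aleph_one_iff, le_aleph0_iff_set_countable] at hcon
  exact countable_cov F hcon hnd hun

end Pool.Agent.Results.MP_293d80_gt.NotAdditive
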